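import Mathlib

/-!
# Project Y734/QP: quadratic points in the plane, statements of the lemmas

Goal (MP_651af7_nt): for `q` rational lines in general position in `ℙ²`, a finite set `S` of places
of `ℚ` and `ε > 0`, `m_S(D, x) ≤ (6 + ε) h(x) + C` for all points `x` of degree at most two outside
a proper closed subset.
-/

set_option autoImplicit false

namespace Pool.Agent.Y734

open MvPolynomial NumberField IsDedekindDomain

/-! ### Algebra in a field `Ω` -/

/-- `m` is the lexicographically smallest exponent of `F` -/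
def LexMin {n : ℕ} (F : MvPolynomial (Fin n) ℚ) (m : Fin n →₀ ℕ) : Prop :=
  m ∈ F.support ∧ ∀ m' ∈ F.support, m' ≠ m → ∃ i, m i < m' i ∧ ∀ j, j < i → m j = m' j

/-- `F` is an irreducible form of degree `e` with `F(x) = 0` which divides every form `G` with
`G(x) = 0` -/
def Rel {Ω : Type} [Field Ω] [Algebra ℚ Ω] {n : ℕ} (x : Fin n → Ω) (e : ℕ)
    (F : MvPolynomial (Fin n) ℚ) : Prop :=
  F.IsHomogeneous e ∧ Irreducible F ∧ aeval x F = 0 ∧
    ∀ (k : ℕ) (G : MvPolynomial (Fin n) ℚ), G.IsHomogeneous k → aeval x G = 0 → F ∣ G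

/-- Job PRIN. Two algebraically independent numbers `z 0`, `z 1` are quadratic over the ratios of
the linear forms in `x 0, …, x 3`, and `x 0, …, x 3` satisfy some homogeneous equation over `ℚ`.
Then the ideal of homogeneous relations of the `x i` is principal. -/
def PrinStmt : Prop :=
  ∀ (Ω : Type) [Field Ω] [Algebra ℚ Ω] (x : Fin 4 → Ω) (z : Fin 2 → Ω),
    AlgebraicIndependent ℚ z →
    (∀ j, ∃ a b d : Fin 4 → ℚ, (∑ i, algebraMap ℚ Ω (a i) * x i) ≠ 0 ∧
      (∑ i, algebraMap ℚ Ω (a i) * x i) * z j ^ 2 + (∑ i, algebraMap ℚ Ω (b i) * x i) * z j +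
        ∑ i, algebraMap ℚ Ω (d i) * x i = 0) →
    (∃ (k : ℕ) (G : MvPolynomial (Fin 4) ℚ), G.IsHomogeneous k ∧ G ≠ 0 ∧ aeval x G = 0) →
    ∃ (e : ℕ) (F : MvPolynomial (Fin 4) ℚ), Rel x e F

/-- Job EF (Evertse–Ferretti for a surface in `ℙ³`, abstract form). `A` is a four dimensional space
of numbers; for every `v` in a finite set `V` there is a basis `x v` of `A`, the equation `F v` of
the surface in the coordinates `x v`, its smallest exponent `m v`, and weights `w v i`.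
`Lev v k y a` means that `y` is of degree `k` and of weight at least `a` at `v`. The hypothesis
`sst` is the subspace theorem for the spaces `A ^ k`. -/
def EfStmt : Prop :=
  ∀ (V : Type) [Fintype V] (Ω : Type) [Field Ω] [Algebra ℚ Ω] (A : Submodule ℚ Ω)
    (x : V → Fin 4 → Ω) (_ : ∀ v, Submodule.span ℚ (Set.range (x v)) = A)
    (e : V → ℕ) (_ : ∀ v, 1 ≤ e v) (F : V → MvPolynomial (Fin 4) ℚ) (_ : ∀ v, Rel (x v) (e v) (F v))
    (m : V → Fin 4 →₀ ℕ) (_ : ∀ v, LexMin (F v) (m v)) (w : V → Fin 4 → ℝ)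
    (Lev : V → ℕ → Ω → ℝ → Prop) (_ : ∀ v, Lev v 0 1 0)
    (_ : ∀ v k l y z a b, Lev v k y a → Lev v l z b → Lev v (k + l) (y * z) (a + b))
    (_ : ∀ v i, Lev v 1 (x v i) (w v i))
    (_ : ∀ (k : ℕ) (ι : V → Type) [∀ v, Fintype (ι v)] (b : ∀ v, ι v → Ω) (u : ∀ v, ι v → ℝ),
      1 ≤ k → (∀ v, Fintype.card (ι v) = Module.finrank ℚ (A ^ k : Submodule ℚ Ω)) →
      (∀ v, LinearIndependent ℚ (b v)) → (∀ v i, b v i ∈ A ^ k) →
      (∀ v i, Lev v k (b v i) (u v i)) →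
      ∑ v, ∑ i, u v i ≤ k * Module.finrank ℚ (A ^ k : Submodule ℚ Ω)),
    ∑ v, (∑ i, w v i - (∑ i, w v i * m v i) / e v) ≤ 3

/-- Job REF. Let `m` be a symmetric `3 × 3` matrix with `det m = 0` whose entries `m 0 0`, `m 0 1`,
`m 1 1`, `m 2 2` are combinations of `x 0`, `x 1`, and `m 1 2 = x 2`, `m 0 2 = x 3`. Then the
equation of `x` is a cubic and its smallest exponent is `(0, 1, *, *)`. -/
def RefStmt : Prop :=
  ∀ (Ω : Type) [Field Ω] [Algebra ℚ Ω] (x : Fin 4 → Ω) (_ : LinearIndependent ℚ x)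
    (m : Fin 3 → Fin 3 → Ω) (_ : ∀ i j, m i j = m j i) (_ : Matrix.det (Matrix.of m) = 0)
    (_ : m 0 0 ∈ Submodule.span ℚ {x 0, x 1}) (_ : m 0 1 ∈ Submodule.span ℚ {x 0, x 1})
    (_ : m 1 1 ∈ Submodule.span ℚ {x 0, x 1}) (_ : m 2 2 ∈ Submodule.span ℚ {x 0, x 1})
    (_ : m 1 2 = x 2) (_ : m 0 2 = x 3)
    (_ : m 0 0 ≠ 0) (_ : m 1 1 ≠ 0) (_ : m 2 2 ≠ 0)
    (_ : Submodule.span ℚ {m 0 0, m 0 1, m 1 1} = Submodule.span ℚ {x 0, x 1})
    (e : ℕ) (_ : 2 ≤ e) (F : MvPolynomial (Fin 4) ℚ) (_ : Rel x e F)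
    (mF : Fin 4 →₀ ℕ) (_ : LexMin F mF),
    e = 3 ∧ mF 0 = 0 ∧ mF 1 = 1 ∧ mF 2 + mF 3 = 2

/-- Job DET. A symmetric `3 × 3` matrix `m` with `det m = 0`, no zero of the quadratic form over
`ℚ`, and no pencil of proportional values: the entries satisfy a homogeneous equation. -/
def DetStmt : Prop :=
  ∀ (Ω : Type) [Field Ω] [Algebra ℚ Ω] (x : Fin 4 → Ω) (_ : LinearIndependent ℚ x)
    (m : Fin 3 → Fin 3 → Ω) (_ : ∀ i j, m i j = m j i) (_ : Matrix.det (Matrix.of m) = 0)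
    (_ : ∀ i j, m i j ∈ Submodule.span ℚ (Set.range x))
    (_ : ∀ G : Fin 3 → ℚ, G ≠ 0 → ∑ i, ∑ j, algebraMap ℚ Ω (G i * G j) * m i j ≠ 0)
    (_ : 2 ≤ Module.finrank ℚ (Submodule.span ℚ {m 0 0, m 0 1, m 1 1})),
    ∃ (k : ℕ) (G : MvPolynomial (Fin 4) ℚ), G.IsHomogeneous k ∧ G ≠ 0 ∧ aeval x G = 0

/-! ### The arithmetic of quadratic points -/

/-- The absolute value of `ℚ` at the real place (`none`) or at the prime `p` (`some p`) -/
noncomputable def absQ : Option ℕ → ℚ → ℝ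
  | none => fun r => |(r : ℝ)|
  | some p => fun r => (padicNorm p r : ℝ)

/-- The local Weil function (see `Results/MP_651af7_nt/BoundedDegreeExponential.lean`) -/
noncomputable def weil {L : Type} [Field L] [NumberField L] {n : ℕ} (a : L → ℝ)
    (F : MvPolynomial (Fin (n + 1)) ℚ) (d : ℕ) (x : Fin (n + 1) → L) : ℝ :=
  Real.log ((⨆ j, a (x j)) ^ d / a (MvPolynomial.aeval x F))

/-- The proximity function (see `Results/MP_651af7_nt/BoundedDegreeExponential.lean`) -/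
noncomputable def proximity {L : Type} [Field L] [NumberField L] {n : ℕ} (S : Finset ℕ)
    (F : MvPolynomial (Fin (n + 1)) ℚ) (d : ℕ) (x : Fin (n + 1) → L) : ℝ :=
  ((∑ w : InfinitePlace L, w.mult * weil w F d x) +
    ∑ᶠ v ∈ {v : HeightOneSpectrum (𝓞 L) | ∃ p ∈ S, (p : 𝓞 L) ∈ v.asIdeal},
      weil (FinitePlace.mk v) F d x) / Module.finrank ℚ L

/-- The absolute logarithmic height. -/
noncomputable def height {L : Type} [Field L] [NumberField L] {n : ℕ} (x : Fin (n + 1) → L) : ℝ :=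
  Height.logHeight x / Module.finrank ℚ L

/-- The linear form with coefficients `l`. -/
noncomputable def lin {n : ℕ} (l : Fin (n + 1) → ℚ) : MvPolynomial (Fin (n + 1)) ℚ :=
  ∑ j, MvPolynomial.C (l j) * MvPolynomial.X j

/-- a seminorm on `ℚ³`, compatible with the absolute value at `v`, whose maximum on the coordinate
vectors is one: `N G` stands for `|G(x)| / max |x_j|` -/
def Semi (v : Option ℕ) (N : (Fin 3 → ℚ) → ℝ) : Prop :=
  (∀ G, 0 ≤ N G) ∧ (∀ G H, N (G + H) ≤ N G + N H) ∧ (∀ (r : ℚ) G, N (r • G) = absQ v r * N G) ∧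
    (∀ i, N (Pi.single i 1) ≤ 1) ∧ ∃ i, N (Pi.single i 1) = 1

/-- The data attached to a point of degree at most two: complex coordinates `z`, `z'` of the point
and its conjugate, the integral matrix `M = c (z z'ᵀ + z' zᵀ)`, and for every place
`v ∈ {∞} ∪ S` the normalised absolute values `N v`, `N' v` of linear forms at the two conjugates. -/
structure QData (S : Finset ℕ) (C : ℝ) where
  z : Fin 3 → ℂ
  z' : Fin 3 → ℂ
  c : ℂ
  M : Fin 3 → Fin 3 → ℤ
  N : Option S → (Fin 3 → ℚ) → ℝ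
  N' : Option S → (Fin 3 → ℚ) → ℝ
  h : ℝ
  c_ne : c ≠ 0
  M_eq : ∀ i j, (M i j : ℂ) = c * (z i * z' j + z j * z' i)
  M_le : ∀ i j, |(M i j : ℝ)| ≤ Real.exp h
  h_nonneg : 0 ≤ h
  semi : ∀ v : Option S, Semi (v.map (fun p => (p : ℕ))) (N v)
  semi' : ∀ v : Option S, Semi (v.map (fun p => (p : ℕ))) (N' v)
  /-- the value of the bilinear form `M` at the vectors `G`, `H` -/
  pair_none : ∀ G H : Fin 3 → ℚ, |((∑ i, ∑ j, G i * (M i j : ℚ) * H j : ℚ) : ℝ)| ≤
    C * Real.exp h * max (N none G * N' none H) (N' none G * N none H)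
  pair_some : ∀ (p : S) (G H : Fin 3 → ℚ),
    (padicNorm p (∑ i, ∑ j, G i * (M i j : ℚ) * H j) : ℝ) ≤
      C * max (N (some p) G * N' (some p) H) (N' (some p) G * N (some p) H)

/-- Job BR: every point `x` of degree at most two not on the lines `H i` has such data, with the
relations between heights and proximity functions. -/
def BrStmt : Prop :=
  ∀ (S : Finset ℕ) (_ : ∀ p ∈ S, p.Prime) (q : ℕ) (H : Fin q → Fin 3 → ℚ),
    ∃ C : ℝ, ∀ (L : Type) [Field L] [NumberField L], Module.finrank ℚ L ≤ 2 →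
      ∀ x : Fin 3 → L, x ≠ 0 → MvPolynomial.aeval x (∏ i, lin (n := 2) (H i)) ≠ 0 →
        ∃ Q : QData S C,
          (∀ (k : ℕ) (Φ : MvPolynomial (Fin 3) ℚ), Φ.IsHomogeneous k → aeval x Φ ≠ 0 →
            aeval Q.z Φ ≠ 0 ∧ aeval Q.z' Φ ≠ 0) ∧
          Q.h ≤ 2 * height (n := 2) x + C ∧
          (∀ v i, 0 < Q.N v (H i) ∧ 0 < Q.N' v (H i)) ∧
          2 * proximity (n := 2) S (∏ i, lin (H i)) q x ≤
            ∑ v : Option S, ∑ i, (-Real.log (Q.N v (H i)) - Real.log (Q.N' v (H i))) + C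

end Pool.Agent.Y734
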