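import Mathlib
import Pool.Agent.Y734.Stms
import Pool.Agent.Y734.B.Defs

/-!
# Project Y734/QP, second part: statements without genericity
-/

set_option autoImplicit false

namespace Pool.Agent.Y734.B

open MvPolynomial NumberField Filter Topology

/-- `QData` with the behaviour of the absolute values for the linear forms which vanish at the
point, and for two forms with a quadratic relation over `ℚ` -/
structure QData2 (S : Finset ℕ) (C : ℝ) extends QData S C where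
  conj : ∀ G : Fin 3 → ℚ, lf z G = 0 ↔ lf z' G = 0
  null : ∀ v G, lf z G = 0 → N v G = 0
  null' : ∀ v G, lf z' G = 0 → N' v G = 0
  quad : ∀ v G G' (κ₁ κ₂ : ℚ), lf z G ^ 2 + algebraMap ℚ ℂ κ₁ * (lf z G * lf z G') +
    algebraMap ℚ ℂ κ₂ * lf z G' ^ 2 = 0 →
    N v G ≤ (1 + absQ (v.map (fun p => (p : ℕ))) κ₁ + absQ (v.map (fun p => (p : ℕ))) κ₂) * N v G'
  quad' : ∀ v G G' (κ₁ κ₂ : ℚ), lf z' G ^ 2 + algebraMap ℚ ℂ κ₁ * (lf z' G * lf z' G') +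
    algebraMap ℚ ℂ κ₂ * lf z' G' ^ 2 = 0 →
    N' v G ≤ (1 + absQ (v.map (fun p => (p : ℕ))) κ₁ + absQ (v.map (fun p => (p : ℕ))) κ₂) * N' v G'

/-- Job BR2: as `BrStmt`, with `QData2`. -/
def BrStmt2 : Prop :=
  ∀ (S : Finset ℕ) (_ : ∀ p ∈ S, p.Prime) (q : ℕ) (H : Fin q → Fin 3 → ℚ),
    ∃ C : ℝ, ∀ (L : Type) [Field L] [NumberField L], Module.finrank ℚ L ≤ 2 →
      ∀ x : Fin 3 → L, x ≠ 0 → MvPolynomial.aeval x (∏ i, lin (n := 2) (H i)) ≠ 0 →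
        ∃ Q : QData2 S C,
          (∀ G : Fin 3 → ℚ, lf Q.z G = 0 → aeval x (lin (n := 2) G) = 0) ∧
          Q.h ≤ 2 * height (n := 2) x + C ∧
          (∀ v i, 0 < Q.N v (H i) ∧ 0 < Q.N' v (H i)) ∧
          2 * proximity (n := 2) S (∏ i, lin (H i)) q x ≤
            ∑ v : Option S, ∑ i, (-Real.log (Q.N v (H i)) - Real.log (Q.N' v (H i))) + C

/-- Job HYP2: as `HypStmt`, without genericity. -/
def HypStmt2 : Prop :=
  ∀ (S : Finset ℕ) (_ : ∀ p ∈ S, p.Prime) (q : ℕ) (_ : 4 ≤ q) (H : Fin q → Fin 3 → ℚ)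
    (_ : GenPos H) (C : ℝ) (Q : ℕ → QData2 S C) (_ : Tendsto (fun t => (Q t).h) atTop atTop)
    (_ : ∀ (t : ℕ) (ℓ : Fin 3 → ℚ), ℓ ≠ 0 → lf (Q t).z ℓ = 0 → (dbl H ℓ).card ≤ 2)
    (_ : ∀ t v i, 0 < (Q t).N v (H i) ∧ 0 < (Q t).N' v (H i)) (ε : ℝ) (_ : 0 < ε),
    ∀ᶠ t in atTop, ∑ v : Option S, ∑ i,
      (-Real.log ((Q t).N v (H i)) - Real.log ((Q t).N' v (H i))) ≤ (6 + ε) * (Q t).h

/-- Job GROW. `A` is a finite dimensional space of numbers with `dim A ^ k ≤ C (k + 1)`, and `x v`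
is a nonzero element of `A` of weight at least `w v` at `v`: then `∑ w v ≤ 2`. -/
def GrowStmt : Prop :=
  ∀ (V : Type) [Fintype V] (Ω : Type) [Field Ω] [Algebra ℚ Ω] (A : Submodule ℚ Ω)
    [FiniteDimensional ℚ A] (x : V → Ω) (_ : ∀ v, x v ≠ 0) (_ : ∀ v, x v ∈ A) (w : V → ℝ)
    (Lev : V → ℕ → Ω → ℝ → Prop) (_ : ∀ v, Lev v 0 1 0)
    (_ : ∀ v k l y z a b, Lev v k y a → Lev v l z b → Lev v (k + l) (y * z) (a + b))
    (_ : ∀ v, Lev v 1 (x v) (w v)) (_ : ∀ v y, y ∈ A → Lev v 1 y 0)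
    (_ : ∀ (k : ℕ) (ι : V → Type) [∀ v, Fintype (ι v)] (b : ∀ v, ι v → Ω) (u : ∀ v, ι v → ℝ),
      1 ≤ k → (∀ v, Fintype.card (ι v) = Module.finrank ℚ (A ^ k : Submodule ℚ Ω)) →
      (∀ v, LinearIndependent ℚ (b v)) → (∀ v i, b v i ∈ A ^ k) →
      (∀ v i, Lev v k (b v i) (u v i)) →
      ∑ v, ∑ i, u v i ≤ k * Module.finrank ℚ (A ^ k : Submodule ℚ Ω))
    (C : ℝ) (_ : ∀ k : ℕ, (Module.finrank ℚ (A ^ k : Submodule ℚ Ω) : ℝ) ≤ C * (k + 1)),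
    ∑ v, w v ≤ 2

/-- Job DIM. Four numbers with a homogeneous relation: either all relations are multiples of one
irreducible form, or the powers of the space spanned by the numbers grow at most linearly. -/
def DimStmt : Prop :=
  ∀ (Ω : Type) [Field Ω] [Algebra ℚ Ω] (x : Fin 4 → Ω),
    (∃ (k : ℕ) (G : MvPolynomial (Fin 4) ℚ), G.IsHomogeneous k ∧ G ≠ 0 ∧ aeval x G = 0) →
    (∃ (e : ℕ) (F : MvPolynomial (Fin 4) ℚ), Rel x e F) ∨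
      ∃ C : ℝ, ∀ k : ℕ,
        (Module.finrank ℚ (Submodule.span ℚ (Set.range x) ^ k : Submodule ℚ Ω) : ℝ) ≤ C * (k + 1)

/-- Job DIM, for three numbers. -/
def Dim3Stmt : Prop :=
  ∀ (Ω : Type) [Field Ω] [Algebra ℚ Ω] (x : Fin 3 → Ω),
    (∃ (k : ℕ) (G : MvPolynomial (Fin 3) ℚ), G.IsHomogeneous k ∧ G ≠ 0 ∧ aeval x G = 0) →
      ∃ C : ℝ, ∀ k : ℕ,
        (Module.finrank ℚ (Submodule.span ℚ (Set.range x) ^ k : Submodule ℚ Ω) : ℝ) ≤ C * (k + 1)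

end Pool.Agent.Y734.B
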