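import Mathlib
import Pool.Agent.Y734.Stms
import Pool.Agent.Y734.Abs.Defs
import Pool.Agent.TH461.SST.Stms

/-!
# Project Y734/QP: statements of the analytic lemmas
-/

set_option autoImplicit false

namespace Pool.Agent.Y734

open MvPolynomial NumberField Filter Topology

/-- Job USST: the subspace theorem along an ultrafilter. `x t` are integral vectors satisfying no
fixed linear equation, `B v` nonsingular matrices, and at the place `v` the `i`-th form of `B v` has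
weight at least `w v i` (relative to `h t`, with the normalisation `k h t` at the real place). -/
def UsstStmt : Prop :=
  ∀ (S : Finset ℕ) (_ : ∀ p ∈ S, p.Prime) (U : Ultrafilter ℕ) (_ : (U : Filter ℕ) ≤ atTop)
    (h : ℕ → ℝ) (_ : Tendsto h U atTop) (n : ℕ) (x : ℕ → Fin n → ℤ)
    (_ : ∀ y : Fin n → ℤ, y ≠ 0 → ∀ᶠ t in (U : Filter ℕ), ∑ i, y i * x t i ≠ 0)
    (B : Option S → Matrix (Fin n) (Fin n) ℚ) (_ : ∀ v, (B v).det ≠ 0)
    (w : Option S → Fin n → ℝ) (k : ℕ)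
    (_ : ∀ v i, ∀ ε : ℝ, 0 < ε → ∀ᶠ t in (U : Filter ℕ),
      absQ (v.map (fun p => (p : ℕ))) (∑ j, B v i j * (x t j : ℚ)) ≤
        (if v = none then Real.exp (k * h t) else 1) * Real.exp (-(w v i - ε) * h t)),
    ∑ v, ∑ i, w v i ≤ k * n

/-- Job HYP: construction of the abstract data from a generic sequence of quadratic points. -/
def HypStmt : Prop :=
  ∀ (S : Finset ℕ) (_ : ∀ p ∈ S, p.Prime) (q : ℕ) (_ : 4 ≤ q) (H : Fin q → Fin 3 → ℚ)
    (_ : GenPos H) (C : ℝ) (Q : ℕ → QData S C) (_ : Tendsto (fun t => (Q t).h) atTop atTop)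
    (_ : ∀ (k : ℕ) (Φ : MvPolynomial (Fin 3) ℚ), Φ.IsHomogeneous k → Φ ≠ 0 →
      ∀ᶠ t in atTop, aeval (Q t).z Φ ≠ 0 ∧ aeval (Q t).z' Φ ≠ 0)
    (_ : ∀ t v i, 0 < (Q t).N v (H i) ∧ 0 < (Q t).N' v (H i)) (ε : ℝ) (_ : 0 < ε),
    ∀ᶠ t in atTop, ∑ v : Option S, ∑ i,
      (-Real.log ((Q t).N v (H i)) - Real.log ((Q t).N' v (H i))) ≤ (6 + ε) * (Q t).h

end Pool.Agent.Y734
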