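import Mathlib
import Pool.Agent.Y734.Stms2

/-!
# The main theorem from `BrStmt` and `HypStmt`
-/

set_option autoImplicit false

namespace Pool.Agent.Y734

open MvPolynomial NumberField Filter Topology

/-- nonzero forms -/
def NForm : Type := {Φ : MvPolynomial (Fin 3) ℚ // Φ ≠ 0 ∧ ∃ k, Φ.IsHomogeneous k}

instance : Countable (MvPolynomial (Fin 3) ℚ) := by
  have : Countable (AddMonoidAlgebra ℚ (Fin 3 →₀ ℕ)) := by
    have : Countable ((Fin 3 →₀ ℕ) →₀ ℚ) := inferInstance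
    exact (AddMonoidAlgebra.coeffEquiv (R := ℚ) (M := Fin 3 →₀ ℕ)).injective.countable
  exact this

instance : Countable NForm := by
  unfold NForm
  infer_instance

instance : Nonempty NForm := ⟨⟨1, one_ne_zero, 0, isHomogeneous_one _ _⟩⟩

/-- the height of generic points tends to infinity -/
lemma h_tendsto {S : Finset ℕ} {C1 : ℝ} (Q : ℕ → QData S C1)
    (hgen : ∀ (k : ℕ) (Φ : MvPolynomial (Fin 3) ℚ), Φ.IsHomogeneous k → Φ ≠ 0 →
      ∀ᶠ t in atTop, aeval (Q t).z Φ ≠ 0 ∧ aeval (Q t).z' Φ ≠ 0) :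
    Tendsto (fun t => (Q t).h) atTop atTop := by
  rw [tendsto_atTop]
  intro R
  by_contra hcon
  rw [not_eventually] at hcon
  -- finitely many matrices
  set N : ℤ := ⌈Real.exp R⌉ with hN
  set T : Set (Fin 3 → Fin 3 → ℤ) := {M | ∀ i j, -N ≤ M i j ∧ M i j ≤ N} with hT
  have hTfin : T.Finite := by
    refine (Set.finite_Icc (fun _ _ => -N : Fin 3 → Fin 3 → ℤ) (fun _ _ => N)).subset ?_
    intro M hM
    exact ⟨fun i j => (hM i j).1, fun i j => (hM i j).2⟩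
  have hfreq : ∃ᶠ t in atTop, ∃ M ∈ T, (Q t).M = M := by
    refine hcon.mono fun t ht => ⟨(Q t).M, ?_, rfl⟩
    intro i j
    push Not at ht
    have h1 := (Q t).M_le i j
    have h2 : |((Q t).M i j : ℝ)| ≤ N := by
      refine h1.trans ((Real.exp_le_exp.2 ht.le).trans ?_)
      exact Int.le_ceil _
    have h3 : |(Q t).M i j| ≤ N := by exact_mod_cast h2
    exact abs_le.1 h3
  obtain ⟨M, _, hM⟩ : ∃ M ∈ T, ∃ᶠ t in atTop, (Q t).M = M := by
    by_contra hno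
    push Not at hno
    have hall : ∀ᶠ t in atTop, ∀ M ∈ T, (Q t).M ≠ M := by
      rw [Filter.eventually_all_finite hTfin]
      exact hno
    exact hfreq (hall.mono fun t ht ⟨M, hM, he⟩ => ht M hM he)
  have hX0 : (X 0 : MvPolynomial (Fin 3) ℚ).IsHomogeneous 1 := isHomogeneous_X _ _
  have hz0 := hgen 1 (X 0) hX0 (X_ne_zero _)
  have h00 : M 0 0 ≠ 0 := by
    obtain ⟨t, ht, hz, hz'⟩ := (hM.and_eventually hz0).exists
    intro h0
    have h1 := (Q t).M_eq 0 0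
    rw [ht, h0] at h1
    rw [aeval_X] at hz hz'
    have h2 : (Q t).c * (2 * ((Q t).z 0 * (Q t).z' 0)) = 0 := by
      rw [Int.cast_zero] at h1
      rw [h1]; ring
    exact mul_ne_zero (Q t).c_ne (mul_ne_zero two_ne_zero (mul_ne_zero hz hz')) h2
  set Φ : MvPolynomial (Fin 3) ℚ := C (M 0 0 : ℚ) * X 1 ^ 2 - C (2 * (M 0 1 : ℚ)) * (X 0 * X 1) +
    C (M 1 1 : ℚ) * X 0 ^ 2 with hΦ
  have hΦh : Φ.IsHomogeneous 2 := by
    have a1 := (isHomogeneous_C (Fin 3) (M 0 0 : ℚ)).mul ((isHomogeneous_X ℚ (1 : Fin 3)).pow 2)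
    have a2 := (isHomogeneous_C (Fin 3) (2 * (M 0 1 : ℚ))).mul
      ((isHomogeneous_X ℚ (0 : Fin 3)).mul (isHomogeneous_X ℚ (1 : Fin 3)))
    have a3 := (isHomogeneous_C (Fin 3) (M 1 1 : ℚ)).mul ((isHomogeneous_X ℚ (0 : Fin 3)).pow 2)
    simp only [one_mul, zero_add] at a1 a2 a3
    exact (a1.sub a2).add a3
  have hΦ0 : Φ ≠ 0 := by
    intro h0
    have := congrArg (eval ![0, 1, 0]) h0
    simp [hΦ] at this
    exact h00 this
  obtain ⟨t, ht, hz, _⟩ := (hM.and_eventually (hgen 2 Φ hΦh hΦ0)).exists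
  apply hz
  rw [hΦ]
  simp only [map_add, map_sub, map_mul, map_pow, aeval_C, aeval_X]
  have e00 := (Q t).M_eq 0 0
  have e01 := (Q t).M_eq 0 1
  have e11 := (Q t).M_eq 1 1
  rw [ht] at e00 e01 e11
  have c00 : algebraMap ℚ ℂ (M 0 0 : ℚ) = (M 0 0 : ℂ) := by simp
  have c01 : algebraMap ℚ ℂ (2 * (M 0 1 : ℚ)) = 2 * (M 0 1 : ℂ) := by simp
  have c11 : algebraMap ℚ ℂ (M 1 1 : ℚ) = (M 1 1 : ℂ) := by simp
  rw [← map_mul, c00, c01, c11, e00, e01, e11]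
  ring

/-- the main theorem -/
theorem main_of (hbr : BrStmt) (hhyp : HypStmt) (S : Finset ℕ) (hS : ∀ p ∈ S, p.Prime) (q : ℕ)
    (hq : 4 ≤ q) (H : Fin q → Fin 3 → ℚ) (hH : GenPos H) (ε : ℝ) (hε : 0 < ε) :
    ∃ (Φ : MvPolynomial (Fin 3) ℚ) (k : ℕ) (C : ℝ), Φ ≠ 0 ∧ Φ.IsHomogeneous k ∧
      ∀ (L : Type) [Field L] [NumberField L], Module.finrank ℚ L ≤ 2 → ∀ x : Fin 3 → L, x ≠ 0 →
        aeval x (∏ i, lin (n := 2) (H i)) ≠ 0 → aeval x Φ ≠ 0 →
          proximity (n := 2) S (∏ i, lin (H i)) q x ≤ (6 + ε) * height (n := 2) x + C := by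
  by_contra hcon
  push Not at hcon
  obtain ⟨C0, hC0⟩ := hbr S hS q H
  obtain ⟨enum, henum⟩ := exists_surjective_nat NForm
  -- the product of the first forms
  have hprod : ∀ t : ℕ, (∏ j ∈ Finset.range (t + 1), (enum j).1) ≠ 0 ∧
      ∃ k, (∏ j ∈ Finset.range (t + 1), (enum j).1).IsHomogeneous k := by
    intro t
    refine ⟨Finset.prod_ne_zero_iff.2 fun j _ => (enum j).2.1, ?_⟩
    refine ⟨∑ j ∈ Finset.range (t + 1), (enum j).2.2.choose, ?_⟩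
    exact IsHomogeneous.prod _ _ _ fun j _ => (enum j).2.2.choose_spec
  have hbad : ∀ t : ℕ, ∃ (L : Type) (_ : Field L) (_ : NumberField L) (_ : Module.finrank ℚ L ≤ 2)
      (x : Fin 3 → L) (_ : x ≠ 0) (_ : aeval x (∏ i, lin (n := 2) (H i)) ≠ 0)
      (_ : aeval x (∏ j ∈ Finset.range (t + 1), (enum j).1) ≠ 0),
        (6 + ε) * height (n := 2) x + (t : ℝ) < proximity (n := 2) S (∏ i, lin (H i)) q x := by
    intro t
    obtain ⟨h1, k, h2⟩ := hprod t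
    obtain ⟨L, i1, i2, h3, x, h4, h5, h6, h7⟩ := hcon _ k (t : ℝ) h1 h2
    exact ⟨L, i1, i2, h3, x, h4, h5, h6, h7⟩
  choose L i1 i2 hL x hx hF hΦ hineq using hbad
  choose Q hQ using fun t => hC0 (L t) (hL t) (x t) (hx t) (hF t)
  have hgen : ∀ (k : ℕ) (Φ : MvPolynomial (Fin 3) ℚ), Φ.IsHomogeneous k → Φ ≠ 0 →
      ∀ᶠ t in atTop, aeval (Q t).z Φ ≠ 0 ∧ aeval (Q t).z' Φ ≠ 0 := by
    intro k Φ hk h0
    obtain ⟨j, hj⟩ := henum ⟨Φ, h0, k, hk⟩
    filter_upwards [eventually_ge_atTop j] with t ht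
    refine (hQ t).1 k Φ hk ?_
    intro hz
    apply hΦ t
    rw [map_prod]
    refine Finset.prod_eq_zero (Finset.mem_range.2 (Nat.lt_succ_of_le ht)) ?_
    rw [hj]
    exact hz
  have hh := h_tendsto Q hgen
  have key := hhyp S hS q hq H hH C0 Q hh hgen (fun t v i => (hQ t).2.2.1 v i) ε hε
  obtain ⟨t, ht1, ht2⟩ := (key.and (eventually_ge_atTop
    (⌈((6 + ε) * C0 + C0) / 2⌉₊))).exists
  have h1 := (hQ t).2.1
  have h2 := (hQ t).2.2.2
  have h3 := hineq t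
  have h4 : ((6 + ε) * C0 + C0) / 2 ≤ t := (Nat.le_ceil _).trans (by exact_mod_cast ht2)
  have h5 : (6 + ε) * (Q t).h ≤ (6 + ε) * (2 * height (n := 2) (x t) + C0) :=
    mul_le_mul_of_nonneg_left h1 (by linarith)
  nlinarith

end Pool.Agent.Y734
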