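import Mathlib
import Pool.Agent.Y734.Fin

/-!
# Liouville's inequality for few lines
-/

set_option autoImplicit false

namespace Pool.Agent.Y734

open MvPolynomial NumberField Filter Topology

/-- the product formula: `|y| ∏ |y|_p ≥ 1` -/
lemma prod_padic (S : Finset ℕ) (hS : ∀ p ∈ S, p.Prime) (y : ℤ) (hy : y ≠ 0) :
    (1 : ℝ) ≤ |(y : ℝ)| * ∏ p ∈ S, (padicNorm p (y : ℚ) : ℝ) := by
  have hn : y.natAbs ≠ 0 := Int.natAbs_ne_zero.2 hy
  have h1 : ∏ p ∈ S, p ^ y.natAbs.factorization p ∣ y.natAbs := by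
    refine Finset.prod_dvd_of_isRelPrime ?_ fun p _ => Nat.ordProj_dvd _ _
    intro p hp p' hp' hne
    have := (Nat.coprime_primes (hS p hp) (hS p' hp')).2 hne
    exact (Nat.coprime_iff_isRelPrime).1 (Nat.Coprime.pow _ _ this)
  have h2 : (∏ p ∈ S, p ^ y.natAbs.factorization p) ≤ y.natAbs :=
    Nat.le_of_dvd (Nat.pos_of_ne_zero hn) h1
  have h3 : ∀ p ∈ S, (padicNorm p (y : ℚ) : ℝ) = ((p : ℝ) ^ y.natAbs.factorization p)⁻¹ := by
    intro p hp
    have : Fact p.Prime := ⟨hS p hp⟩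
    rw [padicNorm.eq_zpow_of_nonzero (by exact_mod_cast hy), padicValRat.of_int, zpow_neg,
      zpow_natCast, padicValInt, Nat.factorization_def _ (hS p hp)]
    push_cast
    rfl
  rw [Finset.prod_congr rfl h3, Finset.prod_inv_distrib]
  have h4 : (0 : ℝ) < ∏ p ∈ S, (p : ℝ) ^ y.natAbs.factorization p :=
    Finset.prod_pos fun p hp => pow_pos (by exact_mod_cast (hS p hp).pos) _
  rw [← div_eq_mul_inv, le_div_iff₀ h4, one_mul]
  have h5 : ((∏ p ∈ S, p ^ y.natAbs.factorization p : ℕ) : ℝ) ≤ (y.natAbs : ℝ) := by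
    exact_mod_cast h2
  push_cast at h5
  rw [Nat.cast_natAbs, Int.cast_abs] at h5
  exact h5

/-- Liouville's inequality for one line -/
lemma liou_one (S : Finset ℕ) (hS : ∀ p ∈ S, p.Prime) (C : ℝ) (G : Fin 3 → ℚ) :
    ∃ K : ℝ, ∀ Q : QData S C, lf Q.z G ≠ 0 → lf Q.z' G ≠ 0 →
      (∀ v, 0 < Q.N v G ∧ 0 < Q.N' v G) →
        ∑ v : Option S, (-Real.log (Q.N v G) - Real.log (Q.N' v G)) ≤ Q.h + K := by
  classical
  -- a common denominator
  obtain ⟨D, hD, hDG⟩ : ∃ D : ℤ, D ≠ 0 ∧ ∀ i, ∃ a : ℤ, (D : ℚ) * G i = a := by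
    refine ⟨∏ i, ((G i).den : ℤ), ?_, fun i => ?_⟩
    · exact Finset.prod_ne_zero_iff.2 fun i _ => by exact_mod_cast (G i).den_ne_zero
    · refine ⟨(∏ j ∈ Finset.univ.erase i, ((G j).den : ℤ)) * (G i).num, ?_⟩
      rw [← Finset.mul_prod_erase _ _ (Finset.mem_univ i)]
      push_cast
      have h1 : ((G i).den : ℚ) ≠ 0 := by exact_mod_cast (G i).den_ne_zero
      have h2 : G i = (G i).num / (G i).den := (Rat.num_div_den _).symm
      calc ((G i).den : ℚ) * (∏ j ∈ Finset.univ.erase i, ((G j).den : ℚ)) * G i =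
          (∏ j ∈ Finset.univ.erase i, ((G j).den : ℚ)) * (((G i).den : ℚ) * G i) := by ring
        _ = _ := by rw [Rat.den_mul_eq_num]
  choose a ha using hDG
  refine ⟨(Fintype.card (Option S)) * Real.log (max C 1) + 2 * Real.log |(D : ℝ)|, ?_⟩
  intro Q hz hz' hpos
  set r : ℚ := ∑ i, ∑ j, G i * (Q.M i j : ℚ) * G j with hr
  set y : ℤ := ∑ i, ∑ j, a i * Q.M i j * a j with hy
  have hyr : (y : ℚ) = (D : ℚ) ^ 2 * r := by
    rw [hy, hr]
    push_cast
    rw [Finset.mul_sum]
    refine Finset.sum_congr rfl fun i _ => ?_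
    rw [Finset.mul_sum]
    refine Finset.sum_congr rfl fun j _ => ?_
    rw [← ha i, ← ha j]
    ring
  have hDr : (D : ℝ) ≠ 0 := by exact_mod_cast hD
  have hr0 : r ≠ 0 := by
    intro h0
    have h1 : ((r : ℚ) : ℂ) = Q.c * (2 * (lf Q.z G * lf Q.z' G)) := by
      rw [hr]
      push_cast
      simp only [Q.M_eq, lf, Fin.sum_univ_three]
      simp only [eq_ratCast]
      ring
    rw [h0, Rat.cast_zero] at h1
    exact mul_ne_zero Q.c_ne (mul_ne_zero two_ne_zero (mul_ne_zero hz hz')) h1.symm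
  have hy0 : y ≠ 0 := by
    intro h0
    rw [h0, Int.cast_zero] at hyr
    have : (D : ℚ) ^ 2 ≠ 0 := pow_ne_zero _ (by exact_mod_cast hD)
    exact (mul_ne_zero this hr0) hyr.symm
  have hprod := prod_padic S hS y hy0
  have hpn : ∀ p ∈ S, (0 : ℝ) < (padicNorm p (y : ℚ) : ℝ) := by
    intro p hp
    have : Fact p.Prime := ⟨hS p hp⟩
    have h1 : padicNorm p (y : ℚ) ≠ 0 := padicNorm.nonzero (by exact_mod_cast hy0)
    have h2 := padicNorm.nonneg (p := p) (y : ℚ)
    exact_mod_cast lt_of_le_of_ne h2 (Ne.symm h1)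
  have hyabs : (0 : ℝ) < |(y : ℝ)| := abs_pos.2 (by exact_mod_cast hy0)
  have hlog : 0 ≤ Real.log |(y : ℝ)| + ∑ p ∈ S, Real.log (padicNorm p (y : ℚ) : ℝ) := by
    have h1 := Real.log_nonneg hprod
    rw [Real.log_mul hyabs.ne' (Finset.prod_pos hpn).ne', Real.log_prod fun p hp =>
      (hpn p hp).ne'] at h1
    exact h1
  have hC1 : (0 : ℝ) < max C 1 := lt_of_lt_of_le one_pos (le_max_right _ _)
  -- the real place
  have hinf : Real.log |(y : ℝ)| ≤ 2 * Real.log |(D : ℝ)| + Real.log (max C 1) + Q.h +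
      (Real.log (Q.N none G) + Real.log (Q.N' none G)) := by
    have h1 := Q.pair_none G G
    rw [← hr] at h1
    have h2 : max (Q.N none G * Q.N' none G) (Q.N' none G * Q.N none G) =
        Q.N none G * Q.N' none G := by rw [mul_comm (Q.N' none G), max_self]
    rw [h2] at h1
    have hN := hpos none
    have h3 : |(y : ℝ)| ≤ |(D : ℝ)| ^ 2 * (max C 1 * Real.exp Q.h *
        (Q.N none G * Q.N' none G)) := by
      have h4 : (y : ℝ) = (D : ℝ) ^ 2 * (r : ℝ) := by exact_mod_cast hyr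
      rw [h4, abs_mul, abs_pow]
      refine mul_le_mul_of_nonneg_left (h1.trans ?_) (by positivity)
      exact mul_le_mul_of_nonneg_right (mul_le_mul_of_nonneg_right (le_max_left _ _)
        (Real.exp_pos _).le) (mul_pos hN.1 hN.2).le
    have h5 := Real.log_le_log hyabs h3
    have hDp : 0 < |(D : ℝ)| := abs_pos.2 hDr
    rw [Real.log_mul (by positivity) (by have := hN.1; have := hN.2; positivity),
      Real.log_pow, Real.log_mul (by positivity) (by have := hN.1; have := hN.2; positivity),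
      Real.log_mul (by positivity) (by positivity), Real.log_exp,
      Real.log_mul hN.1.ne' hN.2.ne'] at h5
    push_cast at h5
    linarith
  have hfin : ∀ p : S, Real.log (padicNorm p (y : ℚ) : ℝ) ≤ Real.log (max C 1) +
      (Real.log (Q.N (some p) G) + Real.log (Q.N' (some p) G)) := by
    intro p
    have : Fact (p : ℕ).Prime := ⟨hS p p.2⟩
    have h1 := Q.pair_some p G G
    rw [← hr] at h1
    have h2 : max (Q.N (some p) G * Q.N' (some p) G) (Q.N' (some p) G * Q.N (some p) G) =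
        Q.N (some p) G * Q.N' (some p) G := by rw [mul_comm (Q.N' (some p) G), max_self]
    rw [h2] at h1
    have hN := hpos (some p)
    have h3 : (padicNorm p (y : ℚ) : ℝ) ≤ max C 1 * (Q.N (some p) G * Q.N' (some p) G) := by
      have h4 : padicNorm p (y : ℚ) ≤ padicNorm p r := by
        rw [hyr, padicNorm.mul]
        have h5 : padicNorm p ((D : ℚ) ^ 2) ≤ 1 := by
          have := padicNorm.of_int (p := p) (D ^ 2)
          push_cast at this
          exact this
        exact mul_le_of_le_one_left (padicNorm.nonneg _) h5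
      have h4' : (padicNorm p (y : ℚ) : ℝ) ≤ (padicNorm p r : ℝ) := by exact_mod_cast h4
      refine (h4'.trans h1).trans ?_
      exact mul_le_mul_of_nonneg_right (le_max_left _ _) (mul_pos hN.1 hN.2).le
    have h6 := Real.log_le_log (hpn p p.2) h3
    rw [Real.log_mul hC1.ne' (mul_pos hN.1 hN.2).ne', Real.log_mul hN.1.ne' hN.2.ne'] at h6
    exact h6
  have hsum := Finset.sum_le_sum fun p (_ : p ∈ (Finset.univ : Finset S)) => hfin p
  rw [Finset.sum_coe_sort S fun p => Real.log (padicNorm p (y : ℚ) : ℝ)] at hsum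
  rw [Fintype.sum_option, Fintype.card_option]
  rw [Finset.sum_add_distrib, Finset.sum_const, Finset.card_univ, nsmul_eq_mul] at hsum
  have e1 : ∑ v : S, (-Real.log (Q.N (some v) G) - Real.log (Q.N' (some v) G)) =
      -∑ v : S, (Real.log (Q.N (some v) G) + Real.log (Q.N' (some v) G)) := by
    rw [← Finset.sum_neg_distrib]
    exact Finset.sum_congr rfl fun _ _ => by ring
  rw [e1]
  push_cast
  linarith

/-- Liouville's inequality -/
theorem liou_few (hbr : BrStmt) (S : Finset ℕ) (hS : ∀ p ∈ S, p.Prime) (q : ℕ)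
    (H : Fin q → Fin 3 → ℚ) :
    ∃ C : ℝ, ∀ (L : Type) [Field L] [NumberField L], Module.finrank ℚ L ≤ 2 →
      ∀ x : Fin 3 → L, x ≠ 0 → aeval x (∏ i, lin (n := 2) (H i)) ≠ 0 →
          proximity (n := 2) S (∏ i, lin (H i)) q x ≤ q * height (n := 2) x + C := by
  obtain ⟨C0, hC0⟩ := hbr S hS q H
  choose K hK using fun i => liou_one S hS C0 (H i)
  refine ⟨(q * C0 + ∑ i, K i + C0) / 2, ?_⟩
  intro L _ _ hL x hx hF
  obtain ⟨Q, h1, h2, h3, h4⟩ := hC0 L hL x hx hF
  have h5 : ∀ i, ∑ v : Option S, (-Real.log (Q.N v (H i)) - Real.log (Q.N' v (H i))) ≤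
      Q.h + K i := by
    intro i
    have h6 : aeval x (lin (n := 2) (H i)) ≠ 0 := by
      rw [map_prod] at hF
      exact Finset.prod_ne_zero_iff.1 hF i (Finset.mem_univ i)
    have h7 : (lin (n := 2) (H i)).IsHomogeneous 1 := by
      unfold lin
      refine IsHomogeneous.sum _ _ _ fun j _ => ?_
      have := (isHomogeneous_C (Fin 3) (H i j)).mul (isHomogeneous_X ℚ j)
      simpa using this
    have h8 := h1 1 _ h7 h6
    have e : ∀ z : Fin 3 → ℂ, aeval z (lin (n := 2) (H i)) = lf z (H i) := by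
      intro z
      simp [lin, lf]
    rw [e, e] at h8
    exact hK i Q h8.1 h8.2 fun v => h3 v i
  have h6 : ∑ v : Option S, ∑ i, (-Real.log (Q.N v (H i)) - Real.log (Q.N' v (H i))) ≤
      q * Q.h + ∑ i, K i := by
    rw [Finset.sum_comm]
    refine (Finset.sum_le_sum fun i _ => h5 i).trans (le_of_eq ?_)
    rw [Finset.sum_add_distrib, Finset.sum_const, Finset.card_univ, Fintype.card_fin,
      nsmul_eq_mul]
  have h7 : (q : ℝ) * Q.h ≤ q * (2 * height (n := 2) x + C0) :=
    mul_le_mul_of_nonneg_left h2 (Nat.cast_nonneg _)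
  linarith

end Pool.Agent.Y734
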