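import Mathlib
import Pool.Agent.Y734.Liou
import Pool.Agent.Y734.Stms3
import Pool.Agent.Y734.Abs.Loc

/-!
# The main theorem from `BrStmt2` and `HypStmt2`, with the explicit exceptional set
-/

set_option autoImplicit false

namespace Pool.Agent.Y734.B

open MvPolynomial NumberField Filter Topology

lemma QData2.lf_ne {S : Finset ℕ} {C : ℝ} (Q : QData2 S C) {G : Fin 3 → ℚ}
    (h : 0 < Q.N none G) : lf Q.z G ≠ 0 ∧ lf Q.z' G ≠ 0 := by
  have h1 : lf Q.z G ≠ 0 := by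
    intro h0
    rw [Q.null none G h0] at h
    exact lt_irrefl _ h
  exact ⟨h1, fun h0 => h1 ((Q.conj G).2 h0)⟩

/-- Liouville's inequality for all lines of `D` -/
lemma liou_all (S : Finset ℕ) (hS : ∀ p ∈ S, p.Prime) (C : ℝ) {q : ℕ} (H : Fin q → Fin 3 → ℚ) :
    ∃ K : ℝ, ∀ Q : QData2 S C, (∀ v i, 0 < Q.N v (H i) ∧ 0 < Q.N' v (H i)) →
      ∑ v : Option S, ∑ i, (-Real.log (Q.N v (H i)) - Real.log (Q.N' v (H i))) ≤ q * Q.h + K := by
  choose K hK using fun i => liou_one S hS C (H i)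
  refine ⟨∑ i, K i, ?_⟩
  intro Q hpos
  have h5 : ∀ i, ∑ v : Option S, (-Real.log (Q.N v (H i)) - Real.log (Q.N' v (H i))) ≤
      Q.h + K i := by
    intro i
    have h6 := Q.lf_ne (hpos none i).1
    exact hK i Q.toQData h6.1 h6.2 fun v => hpos v i
  rw [Finset.sum_comm]
  refine (Finset.sum_le_sum fun i _ => h5 i).trans (le_of_eq ?_)
  rw [Finset.sum_add_distrib, Finset.sum_const, Finset.card_univ, Fintype.card_fin,
    nsmul_eq_mul]

/-- the main theorem -/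
theorem main_of2 (hbr : BrStmt2) (hhyp : HypStmt2) (S : Finset ℕ) (hS : ∀ p ∈ S, p.Prime) (q : ℕ)
    (hq : 4 ≤ q) (H : Fin q → Fin 3 → ℚ) (hH : GenPos H) (ε : ℝ) (hε : 0 < ε) :
    ∃ C : ℝ, ∀ (L : Type) [Field L] [NumberField L], Module.finrank ℚ L ≤ 2 →
      ∀ x : Fin 3 → L, x ≠ 0 → aeval x (∏ i, lin (n := 2) (H i)) ≠ 0 →
        (∀ ℓ : Fin 3 → ℚ, ℓ ≠ 0 → aeval x (lin (n := 2) ℓ) = 0 → (dbl H ℓ).card ≤ 2) →
          proximity (n := 2) S (∏ i, lin (H i)) q x ≤ (6 + ε) * height (n := 2) x + C := by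
  by_contra hcon
  push Not at hcon
  obtain ⟨C0, hC0⟩ := hbr S hS q H
  obtain ⟨K, hK⟩ := liou_all S hS C0 H
  have hbad : ∀ t : ℕ, ∃ (L : Type) (_ : Field L) (_ : NumberField L) (_ : Module.finrank ℚ L ≤ 2)
      (x : Fin 3 → L) (_ : x ≠ 0) (_ : aeval x (∏ i, lin (n := 2) (H i)) ≠ 0)
      (_ : ∀ ℓ : Fin 3 → ℚ, ℓ ≠ 0 → aeval x (lin (n := 2) ℓ) = 0 → (dbl H ℓ).card ≤ 2),
        (6 + ε) * height (n := 2) x + (t : ℝ) < proximity (n := 2) S (∏ i, lin (H i)) q x := by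
    intro t
    obtain ⟨L, i1, i2, h3, x, h4, h5, h6, h7⟩ := hcon (t : ℝ)
    exact ⟨L, i1, i2, h3, x, h4, h5, h6, h7⟩
  choose L i1 i2 hL x hx hF hΦ hineq using hbad
  choose Q hQ using fun t => hC0 (L t) (hL t) (x t) (hx t) (hF t)
  have hpos : ∀ t v i, 0 < (Q t).N v (H i) ∧ 0 < (Q t).N' v (H i) := fun t => (hQ t).2.2.1
  have hht : ∀ t, 0 ≤ height (n := 2) (x t) := fun t =>
    div_nonneg (Height.logHeight_nonneg (x t)) (Nat.cast_nonneg _)
  have hq0 : (0 : ℝ) < q := by exact_mod_cast (by omega : 0 < q)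
  have hlow : ∀ t : ℕ, (2 * (t : ℝ) - K - C0) / q ≤ (Q t).h := by
    intro t
    rw [div_le_iff₀ hq0]
    have h1 := hK (Q t) (hpos t)
    have h2 := (hQ t).2.2.2
    have h3 := hineq t
    have h4 : 0 ≤ (6 + ε) * height (n := 2) (x t) := mul_nonneg (by linarith) (hht t)
    linarith
  have hh : Tendsto (fun t => (Q t).h) atTop atTop := by
    refine tendsto_atTop_mono hlow ?_
    refine Tendsto.atTop_div_const hq0 ?_
    refine tendsto_atTop_add_const_right _ _ ?_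
    refine tendsto_atTop_add_const_right _ _ ?_
    exact tendsto_natCast_atTop_atTop.const_mul_atTop (by norm_num)
  have key := hhyp S hS q hq H hH C0 Q hh
    (fun t ℓ hℓ h0 => hΦ t ℓ hℓ ((hQ t).1 ℓ h0)) hpos ε hε
  obtain ⟨t, ht1, ht2⟩ := (key.and (eventually_ge_atTop
    (⌈((6 + ε) * C0 + C0) / 2⌉₊))).exists
  have h1 := (hQ t).2.1
  have h2 := (hQ t).2.2.2
  have h3 := hineq t
  have h4 : ((6 + ε) * C0 + C0) / 2 ≤ t := (Nat.le_ceil _).trans (by exact_mod_cast ht2)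
  have h5 : (6 + ε) * (Q t).h ≤ (6 + ε) * (2 * height (n := 2) (x t) + C0) :=
    mul_le_mul_of_nonneg_left h1 (by linarith)
  nlinarith

/-! ### The finite set of lines -/

lemma dbl_smul {q : ℕ} (H : Fin q → Fin 3 → ℚ) {c : ℚ} (hc : c ≠ 0) (ℓ : Fin 3 → ℚ) :
    dbl H (c • ℓ) = dbl H ℓ := by
  unfold dbl
  ext p
  simp only [Finset.mem_filter, Finset.mem_univ, true_and]
  have h : Matrix.det (Matrix.of ![H p.1, H p.2, c • ℓ]) =
      c * Matrix.det (Matrix.of ![H p.1, H p.2, ℓ]) := by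
    rw [Matrix.det_fin_three, Matrix.det_fin_three]
    simp
    ring
  rw [h, mul_eq_zero, or_iff_right hc]

/-- the line through two double points -/
def join {q : ℕ} (H : Fin q → Fin 3 → ℚ) (a b : Fin q × Fin q) : Fin 3 → ℚ :=
  crossProduct (crossProduct (H a.1) (H a.2)) (crossProduct (H b.1) (H b.2))

lemma join_eq {q : ℕ} (H : Fin q → Fin 3 → ℚ) (a b : Fin q × Fin q) :
    join H a b = Matrix.det (Matrix.of ![H a.1, H a.2, H b.2]) • H b.1 +
      (-Matrix.det (Matrix.of ![H a.1, H a.2, H b.1])) • H b.2 := by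
  unfold join
  rw [Matrix.det_fin_three, Matrix.det_fin_three]
  ext j
  fin_cases j <;>
    simp [cross_apply] <;> ring

lemma det_ne_of_li {a b c : Fin 3 → ℚ} (h : LinearIndependent ℚ ![a, b, c]) :
    Matrix.det (Matrix.of ![a, b, c]) ≠ 0 := by
  have h1 : LinearIndependent ℚ (Matrix.of ![a, b, c]).row := h
  rw [Matrix.linearIndependent_rows_iff_isUnit, Matrix.isUnit_iff_isUnit_det] at h1
  exact h1.ne_zero

lemma join_ne {q : ℕ} (hq : 4 ≤ q) {H : Fin q → Fin 3 → ℚ} (hH : GenPos H) {a b : Fin q × Fin q}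
    (ha : a.1 < a.2) (hb : b.1 < b.2) (hab : a ≠ b) : join H a b ≠ 0 := by
  intro h0
  rw [join_eq] at h0
  obtain ⟨h1, h2⟩ := LinearIndependent.pair_iff.1 (linInd_pair hH hq hb.ne) _ _ h0
  rw [neg_eq_zero] at h2
  have h3 : b.2 = a.1 ∨ b.2 = a.2 := by
    by_contra hno
    push Not at hno
    exact det_ne_of_li (hH a.1 a.2 b.2 ha.ne hno.1.symm hno.2.symm) h1
  have h4 : b.1 = a.1 ∨ b.1 = a.2 := by
    by_contra hno
    push Not at hno
    exact det_ne_of_li (hH a.1 a.2 b.1 ha.ne hno.1.symm hno.2.symm) h2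
  apply hab
  rcases h3 with h3 | h3 <;> rcases h4 with h4 | h4
  · rw [h3, h4] at hb
    exact absurd hb (lt_irrefl _)
  · rw [h3, h4] at hb
    exact absurd (hb.trans ha) (lt_irrefl _)
  · exact Prod.ext h4.symm h3.symm
  · rw [h3, h4] at hb
    exact absurd hb (lt_irrefl _)

lemma eq_smul_join {q : ℕ} (hq : 4 ≤ q) {H : Fin q → Fin 3 → ℚ} (hH : GenPos H)
    {a b : Fin q × Fin q} (hab : a ≠ b) {ℓ : Fin 3 → ℚ} (ha : a ∈ dbl H ℓ) (hb : b ∈ dbl H ℓ) :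
    ∃ c : ℚ, ℓ = c • join H a b := by
  unfold dbl at ha hb
  rw [Finset.mem_filter] at ha hb
  have hj := join_ne hq hH ha.2.1 hb.2.1 hab
  have e1 := ha.2.2
  have e2 := hb.2.2
  rw [Matrix.det_fin_three] at e1 e2
  simp at e1 e2
  have h0 : crossProduct (join H a b) ℓ = 0 := by
    unfold join
    ext j
    fin_cases j
    · simp [cross_apply]
      linear_combination (H b.1 1 * H b.2 2 - H b.1 2 * H b.2 1) * e1 -
        (H a.1 1 * H a.2 2 - H a.1 2 * H a.2 1) * e2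
    · simp [cross_apply]
      linear_combination (H b.1 2 * H b.2 0 - H b.1 0 * H b.2 2) * e1 -
        (H a.1 2 * H a.2 0 - H a.1 0 * H a.2 2) * e2
    · simp [cross_apply]
      linear_combination (H b.1 0 * H b.2 1 - H b.1 1 * H b.2 0) * e1 -
        (H a.1 0 * H a.2 1 - H a.1 1 * H a.2 0) * e2
  by_contra hno
  push Not at hno
  exact (crossProduct_ne_zero_iff_linearIndependent.2
    ((LinearIndependent.pair_iff' hj).2 fun c hc => hno c hc.symm)) h0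

/-- the lines through at least three double points -/
def lns {q : ℕ} (H : Fin q → Fin 3 → ℚ) : Finset (Fin 3 → ℚ) :=
  (Finset.univ.image fun ab : (Fin q × Fin q) × (Fin q × Fin q) => join H ab.1 ab.2).filter
    fun ℓ => ℓ ≠ 0 ∧ 3 ≤ (dbl H ℓ).card

lemma mem_lns {q : ℕ} (hq : 4 ≤ q) {H : Fin q → Fin 3 → ℚ} (hH : GenPos H) {ℓ : Fin 3 → ℚ}
    (hℓ : ℓ ≠ 0) (h3 : 3 ≤ (dbl H ℓ).card) : ∃ ℓ' ∈ lns H, ∃ c : ℚ, ℓ' = c • ℓ := by
  obtain ⟨a, ha, b, hb, hab⟩ := Finset.one_lt_card.1 (by omega : 1 < (dbl H ℓ).card)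
  obtain ⟨c, hc⟩ := eq_smul_join hq hH hab ha hb
  have hc0 : c ≠ 0 := by
    rintro rfl
    rw [zero_smul] at hc
    exact hℓ hc
  have hj : join H a b = c⁻¹ • ℓ := by
    rw [hc, smul_smul, inv_mul_cancel₀ hc0, one_smul]
  refine ⟨join H a b, ?_, c⁻¹, hj⟩
  unfold lns
  rw [Finset.mem_filter, Finset.mem_image]
  refine ⟨⟨(a, b), Finset.mem_univ _, rfl⟩, ?_, ?_⟩
  · rw [hj]
    exact smul_ne_zero (inv_ne_zero hc0) hℓ
  · rw [hj, dbl_smul H (inv_ne_zero hc0)]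
    exact h3

/-- the main theorem for any number of lines -/
theorem top_of2 (hbr : BrStmt2) (hhyp : HypStmt2) (q : ℕ) (H : Fin q → Fin 3 → ℚ)
    (hH : GenPos H) :
    ∃ Λ : Finset (Fin 3 → ℚ), (∀ ℓ ∈ Λ, ℓ ≠ 0 ∧ 3 ≤ (dbl H ℓ).card) ∧
      ∀ (S : Finset ℕ) (_ : ∀ p ∈ S, p.Prime) (ε : ℝ) (_ : 0 < ε),
        ∃ C : ℝ, ∀ (L : Type) [Field L] [NumberField L], Module.finrank ℚ L ≤ 2 →
          ∀ x : Fin 3 → L, x ≠ 0 → aeval x (∏ i, lin (n := 2) (H i)) ≠ 0 →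
            (∀ ℓ ∈ Λ, aeval x (lin (n := 2) ℓ) ≠ 0) →
              proximity (n := 2) S (∏ i, lin (H i)) q x ≤ (6 + ε) * height (n := 2) x + C := by
  by_cases hq : 4 ≤ q
  · refine ⟨lns H, fun ℓ hℓ => ?_, ?_⟩
    · unfold lns at hℓ
      rw [Finset.mem_filter] at hℓ
      exact hℓ.2
    · intro S hS ε hε
      obtain ⟨C, hC⟩ := main_of2 hbr hhyp S hS q hq H hH ε hε
      refine ⟨C, fun L _ _ hL x hx hF hΛ => hC L hL x hx hF fun ℓ hℓ h0 => ?_⟩
      by_contra h3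
      push Not at h3
      obtain ⟨ℓ', hℓ', c, hc⟩ := mem_lns hq hH hℓ h3
      apply hΛ ℓ' hℓ'
      have e : aeval x (lin (n := 2) (c • ℓ)) = algebraMap ℚ L c * aeval x (lin (n := 2) ℓ) := by
        simp [lin, Finset.mul_sum, mul_assoc]
      rw [hc, e, h0, mul_zero]
  · refine ⟨∅, by simp, ?_⟩
    intro S hS ε hε
    obtain ⟨C0, hC0⟩ := hbr S hS q H
    obtain ⟨K, hK⟩ := liou_all S hS C0 H
    refine ⟨(q * C0 + K + C0) / 2, ?_⟩
    intro L _ _ hL x hx hF _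
    obtain ⟨Q, _, h2, h3, h4⟩ := hC0 L hL x hx hF
    have h6 := hK Q h3
    have h7 : (q : ℝ) * Q.h ≤ q * (2 * height (n := 2) x + C0) :=
      mul_le_mul_of_nonneg_left h2 (Nat.cast_nonneg _)
    have h8 : 0 ≤ height (n := 2) x :=
      div_nonneg (Height.logHeight_nonneg x) (Nat.cast_nonneg _)
    have h9 : (q : ℝ) ≤ 6 + ε := by
      have : (q : ℝ) ≤ 3 := by exact_mod_cast (by omega : q ≤ 3)
      linarith
    have h10 := mul_le_mul_of_nonneg_right h9 h8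
    linarith

end Pool.Agent.Y734.B
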