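import Mathlib
import Pool.Agent.Y734.Liou
import Pool.Agent.Y734.BR.Main

/-!
# The main theorem for any number of lines
-/

set_option autoImplicit false

namespace Pool.Agent.Y734

open MvPolynomial NumberField

lemma genPos_of {q : ℕ} {H : Fin q → Fin 3 → ℚ}
    (hH : ∀ I : Finset (Fin q), I.card = 3 → LinearIndependent ℚ (fun i : I => H i)) :
    GenPos H := by
  classical
  intro i j k hij hik hjk
  have h := hH {i, j, k} (by
    rw [Finset.card_eq_three]
    exact ⟨i, j, k, hij, hik, hjk, rfl⟩)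
  let g : Fin 3 → ({i, j, k} : Finset (Fin q)) :=
    ![⟨i, by simp⟩, ⟨j, by simp⟩, ⟨k, by simp⟩]
  have hg : Function.Injective g := by
    intro a b hab
    have hab' := congrArg Subtype.val hab
    fin_cases a <;> fin_cases b <;> simp [g] at hab' ⊢ <;>
      first | exact absurd hab' hij | exact absurd hab'.symm hij | exact absurd hab' hik |
        exact absurd hab'.symm hik | exact absurd hab' hjk | exact absurd hab'.symm hjk
  have h2 := h.comp g hg
  have e : (fun i : ({i, j, k} : Finset (Fin q)) => H i) ∘ g = ![H i, H j, H k] := by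
    funext a
    fin_cases a <;> rfl
  rwa [e] at h2

/-- the main theorem -/
theorem top_of (hhyp : HypStmt) (S : Finset ℕ) (hS : ∀ p ∈ S, p.Prime) (q : ℕ)
    (H : Fin q → Fin 3 → ℚ)
    (hH : ∀ I : Finset (Fin q), I.card = 3 → LinearIndependent ℚ (fun i : I => H i))
    (ε : ℝ) (hε : 0 < ε) :
    ∃ (Φ : MvPolynomial (Fin 3) ℚ) (k : ℕ) (C : ℝ), Φ ≠ 0 ∧ Φ.IsHomogeneous k ∧
      ∀ (L : Type) [Field L] [NumberField L], Module.finrank ℚ L ≤ 2 → ∀ x : Fin 3 → L, x ≠ 0 →
        aeval x (∏ i, lin (n := 2) (H i)) ≠ 0 → aeval x Φ ≠ 0 →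
          proximity (n := 2) S (∏ i, lin (H i)) q x ≤ (6 + ε) * height (n := 2) x + C := by
  by_cases hq : 4 ≤ q
  · exact main_of BR.br hhyp S hS q hq H (genPos_of hH) ε hε
  · obtain ⟨C, hC⟩ := liou_few BR.br S hS q H
    refine ⟨1, 0, C, one_ne_zero, isHomogeneous_one _ _, ?_⟩
    intro L _ _ hL x hx hF _
    have h1 := hC L hL x hx hF
    have h2 : 0 ≤ height (n := 2) x :=
      div_nonneg (Height.logHeight_nonneg x) (Nat.cast_nonneg _)
    have h3 : (q : ℝ) ≤ 6 + ε := by
      have : (q : ℝ) ≤ 3 := by exact_mod_cast (by omega : q ≤ 3)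
      linarith
    have h4 := mul_le_mul_of_nonneg_right h3 h2
    linarith

end Pool.Agent.Y734
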